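import Pool.Agent.KS6_98.AutF.Main

set_option autoImplicit false

namespace Pool.Agent.Results.MP_0c10a3_al.StronglyDistorted

open Pool.Agent.KS6_98.AutF

/-- Let `F` be a free group of infinite rank.  Every sequence `g 0, g 1, …` of automorphisms of `F`
is expressed by words of linear length in at most 24 fixed automorphisms: `g n` is a product of at
most `48 (n + 1)` of them and their inverses (strong distortion).  In particular `Aut F` has finite
width with respect to every generating set. -/
theorem result (α : Type) [Infinite α] :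
    (∀ g : ℕ → MulAut (FreeGroup α), ∃ X : Finset (MulAut (FreeGroup α)), X.card ≤ 24 ∧
      ∀ n, ∃ l : List (MulAut (FreeGroup α)),
        l.length ≤ 48 * (n + 1) ∧ (∀ x ∈ l, x ∈ X ∨ x⁻¹ ∈ X) ∧ l.prod = g n) ∧
    (∀ Y : Set (MulAut (FreeGroup α)), Subgroup.closure Y = ⊤ →
      ∃ n : ℕ, ∀ g : MulAut (FreeGroup α), ∃ l : List (MulAut (FreeGroup α)),
        l.length ≤ n ∧ (∀ x ∈ l, x ∈ Y ∨ x⁻¹ ∈ Y) ∧ l.prod = g) := by
  refine ⟨fun g => ?_, fun Y hY => width Y hY⟩
  obtain ⟨X, h1, h2⟩ := distorted g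
  exact ⟨X, h1, fun n => by simpa [Bd] using h2 n⟩

end Pool.Agent.Results.MP_0c10a3_al.StronglyDistorted
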